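import Mathlib
import Pool.Agent.H323.BLV.Syn
import Pool.Agent.H323.BLV.Fail

/-!
# `Δ¹₁`-comprehension over Basic Law V does not imply `Σ¹₁`-choice

There is a structure `(M, S₁, S₂, …, ∂)` which satisfies Basic Law V, arithmetical comprehension
and `Δ¹₁`-comprehension, but in which an instance of the `Σ¹₁`-choice schema fails.  All the
definitions used in the statement are in `Pool.Agent.H323.BLV.Syn`.

The structure is an ultrapower (over a free ultrafilter on the natural numbers) of a countable set
with an action of the integers, together with the internal relations of bounded definability rank;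
saturation gives `Δ¹₁`-comprehension and the symmetry of the relations refutes choice.
-/

namespace Pool.Agent.Results.MP_4cf54b_lc.ChoiceFails

open H323.BLV

theorem result : ∃ 𝔐 : BLStr,
    BasicLawV 𝔐 ∧ ArithComp 𝔐 ∧ Delta11Comp 𝔐 ∧ ¬ Sigma11Choice 𝔐 :=
  ⟨NN, lawV, arith, delta, not_choice⟩

end Pool.Agent.Results.MP_4cf54b_lc.ChoiceFails
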